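import Mathlib
import Pool.Agent.MP_bef260_an.H31.Hermite
import Pool.Agent.MP_bef260_an.H31.Per

open Filter MeasureTheory
open scoped ENNReal

namespace Pool.Agent.Results.MP_bef260_an.NonFrame

/-- The `n`-th Hermite function `h_n`, with the normalization of the problem file. -/
noncomputable def hermiteFn (n : ℕ) (t : ℝ) : ℂ :=
  (((-1) ^ n * ((2 : ℝ) ^ ((1 : ℝ) / 4) /
      Real.sqrt ((n.factorial : ℝ) * (2 * Real.pi) ^ n * 2 ^ n)) *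
    Real.exp (Real.pi * t ^ 2) *
    iteratedDeriv n (fun s : ℝ => Real.exp (-2 * Real.pi * s ^ 2)) t : ℝ) : ℂ)

/-- The time-frequency shift `π(z) g = M_ω T_x g` for `z = (x, ω)`. -/
noncomputable def tfShift (z : EuclideanSpace ℝ (Fin 2)) (g : ℝ → ℂ) (t : ℝ) : ℂ :=
  Complex.exp (2 * Real.pi * Complex.I * (z 1 : ℝ) * t) * g (t - z 0)

/-- The Gabor system of `g` over `Γ` is a frame for `L²(ℝ)`; the sums are taken in `[0, ∞]`. -/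
def IsGaborFrame (g : ℝ → ℂ) (Γ : Set (EuclideanSpace ℝ (Fin 2))) : Prop :=
  ∃ A B : ℝ, 0 < A ∧ A ≤ B ∧ ∀ f : ℝ → ℂ, MemLp f 2 volume →
    ENNReal.ofReal (A * ∫ t, ‖f t‖ ^ 2) ≤
        ∑' γ : Γ, ENNReal.ofReal (‖∫ t, f t * (starRingEnd ℂ) (tfShift γ g t)‖ ^ 2) ∧
      ∑' γ : Γ, ENNReal.ofReal (‖∫ t, f t * (starRingEnd ℂ) (tfShift γ g t)‖ ^ 2) ≤
        ENNReal.ofReal (B * ∫ t, ‖f t‖ ^ 2)

/-- The lower Beurling density. -/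
noncomputable def lowerDensity (Γ : Set (EuclideanSpace ℝ (Fin 2))) : ℝ≥0∞ :=
  liminf (fun R : ℝ => ⨅ z : EuclideanSpace ℝ (Fin 2),
    ((Γ ∩ Metric.ball z R).encard : ℝ≥0∞) / volume (Metric.ball z R)) atTop

theorem result (n : ℕ) (hn : 1 ≤ n) :
    ∃ (a : ℝ) (z : Fin (2 * n + 1) → EuclideanSpace ℝ (Fin 2)) (Γ : Set (EuclideanSpace ℝ (Fin 2))),
      0 < a ∧ Γ = {γ | ∃ (m : Fin (2 * n + 1)) (j l : ℤ),
        γ 0 = z m 0 + a * j ∧ γ 1 = z m 1 + a⁻¹ * l} ∧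
      (∀ (m m' : Fin (2 * n + 1)) (j l : ℤ),
        z m 0 = z m' 0 + a * j → z m 1 = z m' 1 + a⁻¹ * l → m = m') ∧
      (∃ δ : ℝ, 0 < δ ∧ ∀ γ ∈ Γ, ∀ γ' ∈ Γ, γ ≠ γ' → δ ≤ dist γ γ') ∧
      (n : ℝ≥0∞) + 1 < lowerDensity Γ ∧ 2 * (n : ℝ≥0∞) + 1 ≤ lowerDensity Γ ∧
      ¬ IsGaborFrame (hermiteFn n) Γ := by
  have hpi := Real.pi_pos
  have hC : 0 < (2 : ℝ) ^ ((1 : ℝ) / 4) /
      Real.sqrt ((n.factorial : ℝ) * (2 * Real.pi) ^ n * 2 ^ n) := by positivity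
  obtain ⟨hc, ⟨K, hK0, hK⟩, hpar, t, ht1, ht2⟩ :=
    Pool.Agent.MP_bef260_an.H31.hermite_props n hC _ (fun _ => rfl)
  obtain ⟨a, z, Γ, ha, hΓ, hz, h1, h2, h3⟩ :=
    Pool.Agent.MP_bef260_an.H31.exists_periodic n hc hK0 hK hpar ht1 ht2
  refine ⟨a, z, Γ, ha, hΓ, hz, h1, lt_of_lt_of_le ?_ h2, h2, ?_⟩
  · have : n + 1 < 2 * n + 1 := by omega
    exact_mod_cast this
  · rintro ⟨A, B, hA, -, hf⟩
    obtain ⟨f, hf1, hf2⟩ := h3 A hA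
    exact absurd (hf f hf1).1 (not_le.mpr hf2)

end Pool.Agent.Results.MP_bef260_an.NonFrame
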